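import Pool.Agent.W516.MTK.Main

/-!
# Injectivity of the evaluation at the comparison isomorphism on a homogeneous torsor

Let `A` be a homogeneous torsor over `ℚ` which contains the comparison isomorphism `p` of a mixed
Tate motive over `ℤ` (for example the torsor of associators, acting on the coordinate ring of the
fundamental group up to some weight, and `p` the KZ associator).  The evaluation at `p` of the
functions on `A` is injective if and only if the Zariski closure of `p` over `ℚ` is a torsor, the
odd zeta values which occur are irrational, and `A` is minimal among the homogeneous torsors over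
`ℚ` which contain `p`.
-/

set_option autoImplicit false

namespace Pool.Agent.Results.MP_807c24_nt.MinimalTorsorKZ

open Pool.Agent.W516.MTZ Pool.Agent.W516.MTH

theorem result (m X : Type) [Fintype m] [DecidableEq m] [Fintype X] [DecidableEq X]
    (M : Motive m X) (p : (Matrix m m ℂ)ˣ) (hp : p ∈ M.gp)
    (hdeg : ∀ x, Odd (M.deg x) ∧ 3 ≤ M.deg x) (hinj : Function.Injective M.deg)
    (hpi : (p : Matrix m m ℂ) M.t M.t = 2 * Real.pi * Complex.I)
    (hzeta : ∀ x, (p : Matrix m m ℂ) M.o (M.s x) = riemannZeta (M.deg x))
    (A : Set (Matrix m m ℂ)ˣ) (hA : IsTorsor A) (hAh : Homogeneous M A) (hpA : p ∈ A) :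
    A ⊆ clos p ↔ IsTorsor (clos p) ∧ (∀ (x : X) (q : ℚ), riemannZeta (M.deg x) ≠ q) ∧
      ∀ T : Set (Matrix m m ℂ)ˣ, IsTorsor T → Homogeneous M T → p ∈ T → T ⊆ A → T = A :=
  Pool.Agent.W516.MTK.main_k hp hdeg hinj hpi hzeta A hA hAh hpA

end Pool.Agent.Results.MP_807c24_nt.MinimalTorsorKZ
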